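import Mathlib

/-!
# Bounded extensions of biorthogonal functionals with dense sum

Let `E` be a separable Banach space over `ℝ` or `ℂ`, let `x n` be a sequence in `E`, let `Y` be
its closed linear span and let `φ n` be continuous linear functionals on `Y` with
`φ i (x j) = δ_{ij}` and `‖φ n‖ ≤ M`.  We show that the `φ n` extend to functionals `f n` on `E`
with `‖f n‖ ≤ 2 * M + ε` such that `Y + ⋂ n, ker (f n)` is dense in `E`.

Proof.  `y ↦ (φ n y)` maps `Y` into `c₀`, with dense range.  By Veech's proof of Sobczyk's theorem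
the `φ n` have extensions to `E` which are pointwise null and bounded by `2 * M`.  Then, for a
dense sequence `u k`, one corrects the extensions by small rank one perturbations (in `c₀`) so that
a vector of `u k + Y` is annihilated by all of them, for every `k`.
-/

set_option autoImplicit false

namespace Pool.Agent.Lib.MP_b3b95b_an

open Filter Topology TopologicalSpace

section Aux

variable {𝕜 : Type*} [RCLike 𝕜] {E : Type*} [NormedAddCommGroup E] [NormedSpace 𝕜 E]

/-- A functional vanishing on a closed subspace and equal to one at a point off it. -/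
lemma exists_functional (W : Submodule 𝕜 E) (hW : IsClosed (W : Set E)) (u : E) (hu : u ∉ W) :
    ∃ g : E →L[𝕜] 𝕜, (∀ w ∈ W, g w = 0) ∧ g u = 1 := by
  have : IsClosed (W : Set E) := hW
  have hne : (W.mkQ u) ≠ 0 := by
    intro h
    rw [Submodule.mkQ_apply, Submodule.Quotient.mk_eq_zero] at h
    exact hu h
  obtain ⟨f, hf⟩ := SeparatingDual.exists_eq_one (R := 𝕜) hne
  refine ⟨f.comp W.mkQL, ?_, ?_⟩
  · intro w hw
    have : W.mkQ w = 0 := by
      rw [Submodule.mkQ_apply, Submodule.Quotient.mk_eq_zero]; exact hw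
    show f (W.mkQ w) = 0
    rw [this, map_zero]
  · exact hf

/-- Pointwise convergence on a dense set plus boundedness gives pointwise convergence. -/
lemma tendsto_zero_of_dense {G : ℕ → E →L[𝕜] 𝕜} {C : ℝ} (hC : ∀ n, ‖G n‖ ≤ C) (S : Set E)
    (h : ∀ s ∈ S, Tendsto (fun n => G n s) atTop (𝓝 0)) (z : E) (hz : z ∈ closure S) :
    Tendsto (fun n => G n z) atTop (𝓝 0) := by
  have hC0 : 0 ≤ C := le_trans (norm_nonneg _) (hC 0)
  rw [Metric.tendsto_atTop]
  intro ε hε
  have hpos : 0 < ε / (2 * (C + 1)) := by positivity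
  obtain ⟨s, hs, hzs⟩ := Metric.mem_closure_iff.mp hz _ hpos
  obtain ⟨N, hN⟩ := (Metric.tendsto_atTop.mp (h s hs)) (ε / 2) (by positivity)
  refine ⟨N, fun n hn => ?_⟩
  have h1 := hN n hn
  rw [dist_zero_right] at h1 ⊢
  have h2 : ‖G n (z - s)‖ ≤ C * ‖z - s‖ :=
    le_trans ((G n).le_opNorm _) (mul_le_mul_of_nonneg_right (hC n) (norm_nonneg _))
  have h3 : ‖z - s‖ < ε / (2 * (C + 1)) := by rwa [← dist_eq_norm]
  have h4 : C * ‖z - s‖ ≤ ε / 2 := by
    have : (C + 1) * ‖z - s‖ ≤ ε / 2 := by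
      have h5 := mul_le_mul_of_nonneg_left h3.le (by positivity : (0 : ℝ) ≤ C + 1)
      have h6 : (C + 1) * (ε / (2 * (C + 1))) = ε / 2 := by field_simp
      linarith
    nlinarith [norm_nonneg (z - s)]
  have h7 : G n z = G n (z - s) + G n s := by rw [← map_add]; simp
  rw [h7]
  calc ‖G n (z - s) + G n s‖ ≤ ‖G n (z - s)‖ + ‖G n s‖ := norm_add_le _ _
    _ < ε := by linarith

/-- Veech's argument for Sobczyk's theorem: functionals on a closed subspace which are bounded by
`M` and pointwise null have extensions to the (separable) whole space which are bounded by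
`2 * M` and pointwise null. -/
lemma sobczyk [SeparableSpace E] (Y : Submodule 𝕜 E) (φ : ℕ → (Y →L[𝕜] 𝕜)) (M : ℝ)
    (hM : ∀ n, ‖φ n‖ ≤ M) (hnull : ∀ y : Y, Tendsto (fun n => φ n y) atTop (𝓝 0)) :
    ∃ F : ℕ → (E →L[𝕜] 𝕜), (∀ n (y : Y), F n y = φ n y) ∧ (∀ n, ‖F n‖ ≤ 2 * M) ∧
      ∀ z : E, Tendsto (fun n => F n z) atTop (𝓝 0) := by
  have hM0 : 0 ≤ M := le_trans (norm_nonneg _) (hM 0)
  have hext : ∀ n, ∃ g : E →L[𝕜] 𝕜, (∀ y : Y, g y = φ n y) ∧ ‖g‖ = ‖φ n‖ := fun n =>
    exists_extension_norm_eq Y (φ n)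
  choose g hgext hgnorm using hext
  have hgM : ∀ n, ‖g n‖ ≤ M := fun n => (hgnorm n).le.trans (hM n)
  have : Nonempty E := ⟨0⟩
  let d : ℕ → E := denseSeq E
  let P : ℕ → ℕ → Prop := fun N n => ∃ k : E →L[𝕜] 𝕜, ‖k‖ ≤ M ∧ (∀ y : Y, k y = 0) ∧
    ∀ i < N, ‖g n (d i) - k (d i)‖ ≤ 1 / ((N : ℝ) + 1)
  have hP0 : ∀ n, P 0 n := fun n => ⟨0, by simpa using hM0, fun y => by simp, fun i hi => by omega⟩
  have hP : ∀ N, ∀ᶠ n in atTop, P N n := by
    intro N
    by_contra hcon
    rw [Filter.not_eventually] at hcon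
    have hne : (atTop ⊓ 𝓟 {n | ¬ P N n}).NeBot := Filter.frequently_mem_iff_neBot.mp hcon
    let U : Ultrafilter ℕ := Ultrafilter.of (atTop ⊓ 𝓟 {n | ¬ P N n})
    have hU : (U : Filter ℕ) ≤ atTop ⊓ 𝓟 {n | ¬ P N n} := Ultrafilter.of_le _
    have hUtop : (U : Filter ℕ) ≤ atTop := hU.trans inf_le_left
    have hUbad : ∀ᶠ n in (U : Filter ℕ), ¬ P N n := by
      have : {n | ¬ P N n} ∈ (U : Filter ℕ) := (hU.trans inf_le_right) (mem_principal_self _)
      exact this
    have hcomp := WeakDual.isCompact_closedBall (𝕜 := 𝕜) (E := E) (0 : StrongDual 𝕜 E) M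
    let G : ℕ → WeakDual 𝕜 E := fun n => StrongDual.toWeakDual (g n)
    have hGmem : ∀ n, G n ∈ (WeakDual.toStrongDual ⁻¹' Metric.closedBall (0 : StrongDual 𝕜 E) M) := by
      intro n
      show WeakDual.toStrongDual (G n) ∈ Metric.closedBall (0 : StrongDual 𝕜 E) M
      rw [mem_closedBall_zero_iff]
      exact hgM n
    obtain ⟨k, hkmem, hk⟩ := hcomp.ultrafilter_le_nhds (U.map G) (by
      rw [le_principal_iff]
      exact Filter.mem_map.mpr (Filter.univ_mem' hGmem))
    have hkx : ∀ z : E, Tendsto (fun n => g n z) (U : Filter ℕ) (𝓝 (k z)) := by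
      intro z
      have h1 : Tendsto G (U : Filter ℕ) (𝓝 k) := hk
      exact ((WeakDual.eval_continuous z).tendsto k).comp h1
    have hkM : ‖(WeakDual.toStrongDual k)‖ ≤ M := by
      have := hkmem
      rwa [Set.mem_preimage, mem_closedBall_zero_iff] at this
    have hkY : ∀ y : Y, k y = 0 := by
      intro y
      have h1 : Tendsto (fun n => g n y) (U : Filter ℕ) (𝓝 0) := by
        have : Tendsto (fun n => φ n y) (U : Filter ℕ) (𝓝 0) := (hnull y).mono_left hUtop
        exact this.congr (fun n => (hgext n y).symm)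
      exact tendsto_nhds_unique (hkx y) h1
    have hclose : ∀ᶠ n in (U : Filter ℕ), ∀ i < N, ‖g n (d i) - k (d i)‖ ≤ 1 / ((N : ℝ) + 1) := by
      have : ∀ i ∈ Set.Iio N, ∀ᶠ n in (U : Filter ℕ), ‖g n (d i) - k (d i)‖ ≤ 1 / ((N : ℝ) + 1) := by
        intro i _
        have h1 := (Metric.tendsto_nhds.mp (hkx (d i))) (1 / ((N : ℝ) + 1)) (by positivity)
        filter_upwards [h1] with n hn
        rw [dist_eq_norm] at hn
        exact hn.le
      have h2 := (Filter.eventually_all_finite (Set.finite_Iio N)).mpr this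
      filter_upwards [h2] with n hn i hi
      exact hn i hi
    obtain ⟨n, hn1, hn2⟩ := (hUbad.and hclose).exists
    exact hn1 ⟨WeakDual.toStrongDual k, hkM, hkY, hn2⟩
  classical
  let N : ℕ → ℕ := fun n => Nat.findGreatest (fun m => P m n) n
  have hN : ∀ n, P (N n) n := fun n => Nat.findGreatest_spec (P := fun m => P m n) (m := 0) (Nat.zero_le n) (hP0 n)
  have hNtop : ∀ m, ∀ᶠ n in atTop, m ≤ N n := by
    intro m
    filter_upwards [hP m, eventually_ge_atTop m] with n h1 h2
    exact Nat.le_findGreatest h2 h1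
  choose k hkM hkY hkd using hN
  refine ⟨fun n => g n - k n, ?_, ?_, ?_⟩
  · intro n y
    simp [hgext n y, hkY n y]
  · intro n
    calc ‖g n - k n‖ ≤ ‖g n‖ + ‖k n‖ := norm_sub_le _ _
      _ ≤ M + M := add_le_add (hgM n) (hkM n)
      _ = 2 * M := by ring
  · intro z
    have hbd : ∀ n, ‖g n - k n‖ ≤ 2 * M := by
      intro n
      calc ‖g n - k n‖ ≤ ‖g n‖ + ‖k n‖ := norm_sub_le _ _
        _ ≤ M + M := add_le_add (hgM n) (hkM n)
        _ = 2 * M := by ring
    refine tendsto_zero_of_dense hbd (Set.range d) ?_ z ?_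
    · rintro _ ⟨i, rfl⟩
      rw [Metric.tendsto_atTop]
      intro ε hε
      obtain ⟨m, hm⟩ := exists_nat_one_div_lt hε
      have h1 : ∀ᶠ n in atTop, max m (i + 1) ≤ N n := hNtop _
      obtain ⟨n0, hn0⟩ := eventually_atTop.mp h1
      refine ⟨n0, fun n hn => ?_⟩
      have h2 := hn0 n hn
      have h3 : i < N n := lt_of_lt_of_le (Nat.lt_succ_self i) (le_trans (le_max_right _ _) h2)
      have h4 : m ≤ N n := le_trans (le_max_left _ _) h2
      have h5 := hkd n i h3
      rw [dist_zero_right]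
      have h6 : 1 / ((N n : ℝ) + 1) ≤ 1 / ((m : ℝ) + 1) := by
        apply one_div_le_one_div_of_le (by positivity)
        have : (m : ℝ) ≤ (N n : ℝ) := by exact_mod_cast h4
        linarith
      have h7 : (g n - k n) (d i) = g n (d i) - k n (d i) := by simp
      rw [h7]
      linarith
    · exact (denseRange_denseSeq E) z

end Aux

/-- One correction step.  If the functionals `F n` extend the `φ n` and are pointwise null, then for
every closed subspace `W` containing the closed span `Y` of the `x n` and every `u ∉ W` the `F n`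
may be changed by at most `δ`, without being changed on `W`, so that they all annihilate a vector
of `u + Y`. -/
lemma step {𝕜 : Type*} [RCLike 𝕜] {E : Type*} [NormedAddCommGroup E] [NormedSpace 𝕜 E]
    (x : ℕ → E) (Y : Submodule 𝕜 E) (hx : ∀ j, x j ∈ Y) (φ : ℕ → (Y →L[𝕜] 𝕜))
    (hφ : ∀ i j, φ i ⟨x j, hx j⟩ = if i = j then 1 else 0)
    (F : ℕ → (E →L[𝕜] 𝕜)) (hF : ∀ n (y : Y), F n y = φ n y)
    (hFnull : ∀ z, Tendsto (fun n => F n z) atTop (𝓝 0))
    (W : Submodule 𝕜 E) (hW : IsClosed (W : Set E)) (hYW : Y ≤ W) (u : E) (hu : u ∉ W)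
    (δ : ℝ) (hδ : 0 < δ) :
    ∃ F' : ℕ → (E →L[𝕜] 𝕜), (∀ n (y : Y), F' n y = φ n y) ∧
      (∀ z, Tendsto (fun n => F' n z) atTop (𝓝 0)) ∧
      (∀ n, ∀ w ∈ W, F' n w = F n w) ∧ (∀ n, ‖F' n - F n‖ ≤ δ) ∧
      ∃ y ∈ Y, ∀ n, F' n (u - y) = 0 := by
  obtain ⟨g, hgW, hgu⟩ := exists_functional W hW u hu
  have hpos : 0 < δ / (‖g‖ + 1) := by positivity
  obtain ⟨N, hN⟩ := (Metric.tendsto_atTop.mp (hFnull u)) _ hpos
  let y : Y := ∑ i ∈ Finset.range N, F i u • (⟨x i, hx i⟩ : Y)
  have hy : ∀ n, φ n y = if n < N then F n u else 0 := by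
    intro n
    simp only [y, map_sum, map_smul, hφ, smul_eq_mul, mul_ite, mul_one, mul_zero,
      Finset.sum_ite_eq, Finset.mem_range]
  let h : ℕ → 𝕜 := fun n => F n u - φ n y
  have hh : ∀ n, ‖h n‖ ≤ δ / (‖g‖ + 1) := by
    intro n
    by_cases hn : n < N
    · simp only [h, hy n, if_pos hn, sub_self, norm_zero]; positivity
    · simp only [h, hy n, if_neg hn, sub_zero]
      have := hN n (not_lt.mp hn)
      rw [dist_zero_right] at this
      exact this.le
  have hhnull : Tendsto h atTop (𝓝 0) := by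
    have h1 : (fun n => F n u) =ᶠ[atTop] h := by
      filter_upwards [eventually_ge_atTop N] with n hn
      simp only [h, hy n, if_neg (not_lt.mpr hn), sub_zero]
    exact (hFnull u).congr' h1
  refine ⟨fun n => F n - h n • g, ?_, ?_, ?_, ?_, y, y.2, ?_⟩
  · intro n z
    have : g (z : E) = 0 := hgW _ (hYW z.2)
    simp [this, hF]
  · intro z
    have h1 : Tendsto (fun n => F n z - h n * g z) atTop (𝓝 (0 - 0 * g z)) :=
      (hFnull z).sub (hhnull.mul_const _)
    simpa using h1
  · intro n w hw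
    simp [hgW w hw]
  · intro n
    have h1 : F n - h n • g - F n = -(h n • g) := by abel
    rw [h1, norm_neg, norm_smul]
    calc ‖h n‖ * ‖g‖ ≤ (δ / (‖g‖ + 1)) * (‖g‖ + 1) :=
          mul_le_mul (hh n) (by linarith) (norm_nonneg _) hpos.le
      _ = δ := by field_simp
  · intro n
    have h1 : g (y : E) = 0 := hgW _ (hYW y.2)
    have h2 : F n (y : E) = φ n y := hF n y
    simp only [sub_apply, smul_apply, map_sub, h1, hgu,
      smul_eq_mul, mul_one, h2, h]
    ring

/-- The main theorem, with the closed span `Y` as a variable. -/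
lemma main {𝕜 : Type*} [RCLike 𝕜] {E : Type*} [NormedAddCommGroup E] [NormedSpace 𝕜 E]
    [SeparableSpace E] (x : ℕ → E) (Y : Submodule 𝕜 E)
    (hY : Y = (Submodule.span 𝕜 (Set.range x)).topologicalClosure)
    (hxY : ∀ j, x j ∈ Y) (φ : ℕ → (Y →L[𝕜] 𝕜))
    (hφ' : ∀ i j, φ i ⟨x j, hxY j⟩ = if i = j then 1 else 0)
    (M : ℝ) (hM : ∀ n, ‖φ n‖ ≤ M) (ε : ℝ) (hε : 0 < ε) :
    ∃ f : ℕ → (E →L[𝕜] 𝕜), (∀ n (y : Y), f n y = φ n y) ∧ (∀ n, ‖f n‖ ≤ 2 * M + ε) ∧
      Dense ((Y ⊔ ⨅ n, (f n).ker : Submodule 𝕜 E) : Set E) := by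
  have hspanY : Submodule.span 𝕜 (Set.range x) ≤ Y := by
    rw [hY]; exact Submodule.le_topologicalClosure _
  -- the functionals are pointwise null on `Y`
  have hnull : ∀ y : Y, Tendsto (fun n => φ n y) atTop (𝓝 0) := by
    intro y
    have hspan : ∀ (z : E) (hz : z ∈ Submodule.span 𝕜 (Set.range x)),
        Tendsto (fun n => φ n ⟨z, hspanY hz⟩) atTop (𝓝 0) := by
      intro z hz
      induction hz using Submodule.span_induction with
      | mem z hz =>
        obtain ⟨j, rfl⟩ := hz
        refine tendsto_const_nhds.congr' ?_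
        filter_upwards [eventually_gt_atTop j] with n hn
        rw [hφ' n j, if_neg (by omega)]
      | zero =>
        refine tendsto_const_nhds.congr (fun n => ?_)
        exact (map_zero (φ n)).symm
      | add a b ha hb iha ihb =>
        have h1 := iha.add ihb
        rw [add_zero] at h1
        refine h1.congr (fun n => ?_)
        rw [← map_add]
        rfl
      | smul c a ha iha =>
        have h1 := iha.const_smul c
        rw [smul_zero] at h1
        refine h1.congr (fun n => ?_)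
        rw [← map_smul]
        rfl
    have hYclos : (y : E) ∈ closure ((Submodule.span 𝕜 (Set.range x)) : Set E) := by
      have h0 : Y ≤ (Submodule.span 𝕜 (Set.range x)).topologicalClosure := hY.le
      exact h0 y.2
    have hy2 : y ∈ closure {z : Y | (z : E) ∈ Submodule.span 𝕜 (Set.range x)} := by
      rw [Metric.mem_closure_iff]
      intro δ hδ
      obtain ⟨z, hz, hyz⟩ := Metric.mem_closure_iff.mp hYclos δ hδ
      exact ⟨⟨z, hspanY hz⟩, hz, hyz⟩
    refine tendsto_zero_of_dense (G := φ) hM _ ?_ y hy2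
    intro z hz
    exact hspan z hz
  obtain ⟨F0, hF0ext, hF0norm, hF0null⟩ := sobczyk Y φ M hM hnull
  have : Nonempty E := ⟨0⟩
  let u : ℕ → E := denseSeq E
  let W : ℕ → Submodule 𝕜 E := fun k => (Y ⊔ Submodule.span 𝕜 (u '' Set.Iio k)).topologicalClosure
  have hYW : ∀ k, Y ≤ W k := fun k => le_sup_left.trans (Submodule.le_topologicalClosure _)
  have huW : ∀ k j, j < k → u j ∈ W k := fun k j hj =>
    Submodule.le_topologicalClosure _ (Submodule.mem_sup_right
      (Submodule.subset_span ⟨j, hj, rfl⟩))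
  have hWcl : ∀ k, IsClosed ((W k : Submodule 𝕜 E) : Set E) := fun k =>
    Submodule.isClosed_topologicalClosure _
  -- the states of the recursion
  let St := {F : ℕ → (E →L[𝕜] 𝕜) // (∀ n (y : Y), F n y = φ n y) ∧
    ∀ z, Tendsto (fun n => F n z) atTop (𝓝 0)}
  let δ : ℕ → ℝ := fun k => ε / 2 / 2 ^ k
  have hδ : ∀ k, 0 < δ k := fun k => by positivity
  have hstep : ∀ (k : ℕ) (F : St), ∃ F' : St, (∀ n, ∀ w ∈ W k, F'.1 n w = F.1 n w) ∧
      (∀ n, ‖F'.1 n - F.1 n‖ ≤ δ k) ∧ (u k ∉ W k → ∃ y ∈ Y, ∀ n, F'.1 n (u k - y) = 0) := by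
    intro k F
    by_cases hu : u k ∈ W k
    · exact ⟨F, fun n w _ => rfl, fun n => by simpa using (hδ k).le, fun h => absurd hu h⟩
    · obtain ⟨F', h1, h2, h3, h4, h5⟩ := step x Y hxY φ hφ' F.1 F.2.1 F.2.2 (W k) (hWcl k) (hYW k)
        (u k) hu (δ k) (hδ k)
      exact ⟨⟨F', h1, h2⟩, h3, h4, fun _ => h5⟩
  choose next hnextW hnextδ hnextu using hstep
  let G : ℕ → St := fun k => Nat.rec ⟨F0, hF0ext, hF0null⟩ (fun k F => next k F) k
  have hGsucc : ∀ k, G (k + 1) = next k (G k) := fun k => rfl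
  have hGW : ∀ k n, ∀ w ∈ W k, (G (k + 1)).1 n w = (G k).1 n w := by
    intro k; rw [hGsucc]; exact hnextW k (G k)
  have hGδ : ∀ k n, ‖(G (k + 1)).1 n - (G k).1 n‖ ≤ δ k := by
    intro k; rw [hGsucc]; exact hnextδ k (G k)
  have hGu : ∀ k, u k ∉ W k → ∃ y ∈ Y, ∀ n, (G (k + 1)).1 n (u k - y) = 0 := by
    intro k; rw [hGsucc]; exact hnextu k (G k)
  -- monotonicity of the subspaces
  have hWmono : ∀ j k, j ≤ k → W j ≤ W k := by
    intro j k hjk
    apply Submodule.topologicalClosure_mono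
    apply sup_le_sup_left
    apply Submodule.span_mono
    apply Set.image_mono
    intro i hi
    exact lt_of_lt_of_le hi hjk
  have hGstable : ∀ j k n w, w ∈ W j → j ≤ k → (G k).1 n w = (G j).1 n w := by
    intro j k n w hw hjk
    induction k, hjk using Nat.le_induction with
    | base => rfl
    | succ k hk ih => rw [hGW k n w (hWmono j k hk hw), ih]
  -- the limit
  have hcauchy : ∀ n, CauchySeq (fun k => (G k).1 n) := by
    intro n
    refine cauchySeq_of_le_geometric_two (C := ε) (fun k => ?_)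
    rw [dist_comm, dist_eq_norm]
    exact hGδ k n
  have hlim : ∀ n, ∃ f : E →L[𝕜] 𝕜, Tendsto (fun k => (G k).1 n) atTop (𝓝 f) := fun n =>
    cauchySeq_tendsto_of_complete (hcauchy n)
  choose f hf using hlim
  have hfz : ∀ n z, Tendsto (fun k => (G k).1 n z) atTop (𝓝 (f n z)) := by
    intro n z
    exact ((ContinuousLinearMap.apply 𝕜 𝕜 z).continuous.tendsto (f n)).comp (hf n)
  refine ⟨f, ?_, ?_, ?_⟩
  · intro n y
    exact tendsto_nhds_unique (hfz n y) (tendsto_const_nhds.congr (fun k => ((G k).2.1 n y).symm))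
  · intro n
    have h1 : dist ((G 0).1 n) (f n) ≤ ε := by
      refine dist_le_of_le_geometric_two_of_tendsto₀ (C := ε) (f := fun k => (G k).1 n)
        (fun k => ?_) (hf n)
      rw [dist_comm, dist_eq_norm]
      exact hGδ k n
    rw [dist_comm, dist_eq_norm] at h1
    have h2 : f n = (f n - (G 0).1 n) + (G 0).1 n := by abel
    rw [h2]
    calc ‖(f n - (G 0).1 n) + (G 0).1 n‖ ≤ ‖f n - (G 0).1 n‖ + ‖(G 0).1 n‖ := norm_add_le _ _
      _ ≤ ε + 2 * M := add_le_add h1 (hF0norm n)
      _ = 2 * M + ε := by ring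
  · -- density
    set Z : Submodule 𝕜 E := Y ⊔ ⨅ n, (f n).ker with hZ
    have hYZ : Y ≤ Z := le_sup_left
    have hu : ∀ k, u k ∈ Z.topologicalClosure := by
      intro k
      induction k using Nat.strong_induction_on with
      | _ k ih =>
        by_cases hk : u k ∈ W k
        · have h1 : W k ≤ Z.topologicalClosure := by
            apply Submodule.topologicalClosure_minimal _ _ (Submodule.isClosed_topologicalClosure _)
            refine sup_le (hYZ.trans (Submodule.le_topologicalClosure _)) ?_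
            rw [Submodule.span_le]
            rintro _ ⟨j, hj, rfl⟩
            exact ih j hj
          exact h1 hk
        · obtain ⟨y, hy, hzero⟩ := hGu k hk
          have hmem : u k - y ∈ W (k + 1) :=
            Submodule.sub_mem _ (huW (k + 1) k (Nat.lt_succ_self k)) (hYW _ hy)
          have hfzero : ∀ n, f n (u k - y) = 0 := by
            intro n
            refine tendsto_nhds_unique (hfz n (u k - y)) ?_
            refine tendsto_const_nhds.congr' ?_
            filter_upwards [eventually_ge_atTop (k + 1)] with m hm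
            rw [hGstable (k + 1) m n _ hmem hm, hzero n]
          apply Submodule.le_topologicalClosure
          have h2 : u k = y + (u k - y) := by abel
          rw [h2]
          refine Submodule.add_mem_sup hy ?_
          rw [Submodule.mem_iInf]
          intro n
          exact hfzero n
    have h3 : Dense ((Z.topologicalClosure : Submodule 𝕜 E) : Set E) := by
      refine (denseRange_denseSeq E).mono ?_
      rintro _ ⟨k, rfl⟩
      exact hu k
    have h4 : closure ((Z.topologicalClosure : Submodule 𝕜 E) : Set E) = closure (Z : Set E) := by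
      rw [Submodule.topologicalClosure_coe, closure_closure]
    intro z
    have h5 := h3 z
    rw [h4] at h5
    exact h5

end Pool.Agent.Lib.MP_b3b95b_an
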